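import Pool.Agent.Q85.UB.Near

/-!
# Bounded solutions of the planar three-body problem

A solution which is defined for all times and whose mutual distances are bounded, in particular a relative periodic
solution, obeys a universal bound: the square of the speed of each body relative to the centre of mass of the other
two, times its distance from the nearer one, is at most a constant of the masses. So every state can be changed by
velocities of the order of the escape velocity so that no such solution starts near the changed state.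
-/

set_option autoImplicit false

namespace Pool.Agent.Results.MP_6e7c44_mp.SpeedBound

/-- Phase points of the three bodies in the plane `ℂ`: positions and velocities (product topology). -/
abbrev Ph := (Fin 3 → ℂ) × (Fin 3 → ℂ)

/-- Newtonian acceleration of body `a`: `∑_{b ≠ a} m_b (q_b - q_a) / |q_b - q_a|^3`. -/
noncomputable def acc (m : Fin 3 → ℝ) (q : Fin 3 → ℂ) (a : Fin 3) : ℂ :=
  ∑ b ∈ Finset.univ.erase a, ((m b / ‖q b - q a‖ ^ 3 : ℝ) : ℂ) * (q b - q a)

/-- The phase space in the centre of mass frame: no collisions, `∑ m_a q_a = 0`, `∑ m_a v_a = 0`. -/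
def phaseSpace (m : Fin 3 → ℝ) : Set Ph :=
  {z | (∀ a b, a ≠ b → z.1 a ≠ z.1 b) ∧ ∑ a, (m a : ℂ) * z.1 a = 0 ∧ ∑ a, (m a : ℂ) * z.2 a = 0}

/-- `x = (q, v)` is a solution of Newton's equations in the centre of mass frame which is defined for all times. -/
def IsSol (m : Fin 3 → ℝ) (x : ℝ → Ph) : Prop :=
  ∀ t, x t ∈ phaseSpace m ∧ HasDerivAt x ((x t).2, acc m (x t).1) t

/-- The mutual distances are periodic functions of time. -/
def IsRelPeriodic (x : ℝ → Ph) : Prop :=
  ∃ T : ℝ, 0 < T ∧ ∀ t a b, ‖(x (t + T)).1 a - (x (t + T)).1 b‖ = ‖(x t).1 a - (x t).1 b‖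

/-- The mutual distances are bounded functions of time. -/
def IsBounded (x : ℝ → Ph) : Prop := ∃ R : ℝ, ∀ t a b, ‖(x t).1 a - (x t).1 b‖ ≤ R

/-- The velocity of the body `c` relative to the centre of mass of the bodies `a` and `b`. -/
noncomputable def relVelocity (m : Fin 3 → ℝ) (z : Ph) (a b c : Fin 3) : ℂ :=
  z.2 c - ((m a : ℂ) * z.2 a + (m b : ℂ) * z.2 b) / ((m a : ℂ) + (m b : ℂ))

/-- The distance of the body `c` from the nearer one of the bodies `a` and `b`. -/
noncomputable def distance (z : Ph) (a b c : Fin 3) : ℝ := min ‖z.1 c - z.1 a‖ ‖z.1 c - z.1 b‖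

theorem result (m : Fin 3 → ℝ) (hm : ∀ a, 0 < m a) :
    ∃ C : ℝ, 0 < C ∧
      (∀ x, IsSol m x → IsRelPeriodic x → IsBounded x) ∧
      (∀ x, IsSol m x → IsBounded x → ∀ (t : ℝ) (a b c : Fin 3), a ≠ b → c ≠ a → c ≠ b →
        ‖relVelocity m (x t) a b c‖ ^ 2 * distance (x t) a b c ≤ C) ∧
      (∀ z ∈ phaseSpace m, ∀ a b c : Fin 3, a ≠ b → c ≠ a → c ≠ b →
        ∃ z' ∈ phaseSpace m, z'.1 = z.1 ∧ (∀ i, ‖z'.2 i - z.2 i‖ ≤ C / Real.sqrt (distance z a b c)) ∧
          ∃ U : Set Ph, IsOpen U ∧ z' ∈ U ∧ ∀ x, IsSol m x → x 0 ∈ U → ¬ IsBounded x) := by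
  have hsol : ∀ x, IsSol m x → Pool.Agent.W821.TB.IsSol m Set.univ x := fun x hx =>
    Pool.Agent.W821.TB.isSol_of (fun t => (hx t).1) (fun t => (hx t).2)
  obtain ⟨C, hC, hb⟩ := Pool.Agent.Q85.UB.bound m hm
  have hs : 0 < Real.sqrt C := Real.sqrt_pos.mpr hC
  refine ⟨C + 3 * Real.sqrt C, by positivity, ?_, ?_, ?_⟩
  · rintro x hx ⟨T, hT, h⟩
    exact Pool.Agent.Q85.UB.rel_periodic_bdd (hsol x hx) hT.ne' h
  · intro x hx hbd t a b c hab hca hcb
    have h := hb x (hsol x hx) hbd t a b c hab hca hcb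
    exact h.trans (by linarith)
  · intro z hz a b c hab hca hcb
    obtain ⟨z', hz', h1, h2, h3⟩ := Pool.Agent.Q85.UB.near m hm C hC z hz a b c hca hcb
    refine ⟨z', hz', h1, fun i => (h2 i).trans ?_, {y : Ph | C < ‖relVelocity m y a b c‖ ^ 2 * distance y a b c},
      ?_, h3, ?_⟩
    · show 3 * Real.sqrt C / Real.sqrt (distance z a b c) ≤ _
      gcongr
      linarith
    · refine isOpen_lt continuous_const ?_
      unfold relVelocity distance
      fun_prop
    · intro x hx hxU hbd
      have h := hb x (hsol x hx) hbd 0 a b c hab hca hcb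
      exact absurd h (not_le.mpr hxU)

end Pool.Agent.Results.MP_6e7c44_mp.SpeedBound
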