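import Pool.Agent.Q85.UB.Main3

/-!
# Unbounded solutions near bounded solutions of the planar three-body problem

Let `x` be a solution of the planar three-body problem which is defined for all times and whose mutual distances are
bounded, for example a relative periodic one. At every time at which a pair is tight, one can change the velocities
slightly so that near the changed state all states start solutions which exist for all positive times and in which
the third body escapes. So these solutions meet no collision and are unbounded.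
-/

set_option autoImplicit false

namespace Pool.Agent.Results.MP_6e7c44_mp.UnboundedNearby

/-- Phase points of the three bodies in the plane `ℂ`: positions and velocities (product topology). -/
abbrev Ph := (Fin 3 → ℂ) × (Fin 3 → ℂ)

/-- Newtonian acceleration of body `a`: `∑_{b ≠ a} m_b (q_b - q_a) / |q_b - q_a|^3`. -/
noncomputable def acc (m : Fin 3 → ℝ) (q : Fin 3 → ℂ) (a : Fin 3) : ℂ :=
  ∑ b ∈ Finset.univ.erase a, ((m b / ‖q b - q a‖ ^ 3 : ℝ) : ℂ) * (q b - q a)

/-- The phase space in the centre of mass frame: no collisions, `∑ m_a q_a = 0`, `∑ m_a v_a = 0`. -/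
def phaseSpace (m : Fin 3 → ℝ) : Set Ph :=
  {z | (∀ a b, a ≠ b → z.1 a ≠ z.1 b) ∧ ∑ a, (m a : ℂ) * z.1 a = 0 ∧ ∑ a, (m a : ℂ) * z.2 a = 0}

/-- `x = (q, v)` is a solution of Newton's equations in the centre of mass frame which is defined for all times. -/
def IsSol (m : Fin 3 → ℝ) (x : ℝ → Ph) : Prop :=
  ∀ t, x t ∈ phaseSpace m ∧ HasDerivAt x ((x t).2, acc m (x t).1) t

/-- `x` is a solution in the centre of mass frame which is defined for all positive times and shortly before `0`:
on the time interval `(-η, ∞)` for some `η > 0`. -/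
def IsForwardSol (m : Fin 3 → ℝ) (x : ℝ → Ph) : Prop :=
  ∃ η : ℝ, 0 < η ∧ ∀ t, -η < t → x t ∈ phaseSpace m ∧ HasDerivAt x ((x t).2, acc m (x t).1) t

/-- The mutual distances are periodic functions of time. -/
def IsRelPeriodic (x : ℝ → Ph) : Prop :=
  ∃ T : ℝ, 0 < T ∧ ∀ t a b, ‖(x (t + T)).1 a - (x (t + T)).1 b‖ = ‖(x t).1 a - (x t).1 b‖

/-- The mutual distances are bounded functions of time. -/
def IsBounded (x : ℝ → Ph) : Prop := ∃ R : ℝ, ∀ t a b, ‖(x t).1 a - (x t).1 b‖ ≤ R

/-- The distance of the body `c` from the nearer one of the bodies `a` and `b`. -/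
noncomputable def distance (z : Ph) (a b c : Fin 3) : ℝ := min ‖z.1 c - z.1 a‖ ‖z.1 c - z.1 b‖

/-- The energy: `∑ m_a |v_a|^2 / 2` minus the sum of `m_a m_b / |q_a - q_b|` over the three pairs (each pair is
counted twice in the double sum, which is halved). -/
noncomputable def energy (m : Fin 3 → ℝ) (z : Ph) : ℝ :=
  (∑ a, m a * ‖z.2 a‖ ^ 2) / 2 - (∑ a, ∑ b ∈ Finset.univ.erase a, m a * m b / ‖z.1 b - z.1 a‖) / 2

/-- In the centre of mass frame let `x` be a solution with bounded mutual distances which is defined for all times.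
At a time `t` let `r` be the distance of the bodies `a` and `b`, let `ρ` be the distance of `c` from the nearer of
them, and put `w = (ρ^2 r)^(-1/6)`. If `C r ≤ ρ` and `C ≤ ρ r^2 (-energy)^3`, then velocity changes of size at most
`C w` lead to a state with a neighbourhood `U` all of whose states start solutions which are defined for all positive
times, the distance of `c` from `a` and `b` at time `s` being at least `(ρ + w s) / 16`. -/
theorem result (m : Fin 3 → ℝ) (hm : ∀ a, 0 < m a) :
    ∃ C : ℝ, 0 < C ∧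
      (∀ x, IsSol m x → IsRelPeriodic x → IsBounded x) ∧
      ∀ x, IsSol m x → IsBounded x → ∀ (t : ℝ) (a b c : Fin 3), a ≠ b → c ≠ a → c ≠ b →
        ∀ r ρ w : ℝ, r = ‖(x t).1 a - (x t).1 b‖ → ρ = distance (x t) a b c → 0 < w →
          w ^ 6 * (ρ ^ 2 * r) = 1 → C * r ≤ ρ → C ≤ ρ * r ^ 2 * (-energy m (x t)) ^ 3 →
          ∃ z' ∈ phaseSpace m, z'.1 = (x t).1 ∧ (∀ i, ‖z'.2 i - (x t).2 i‖ ≤ C * w) ∧
            ∃ U : Set Ph, IsOpen U ∧ z' ∈ U ∧ ∀ y₀ ∈ U, y₀ ∈ phaseSpace m →
              ∃ y : ℝ → Ph, IsForwardSol m y ∧ y 0 = y₀ ∧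
                ∀ s, 0 ≤ s → (ρ + w * s) / 16 ≤ distance (y s) a b c := by
  have hsol : ∀ x, IsSol m x → Pool.Agent.W821.TB.IsSol m Set.univ x := fun x hx =>
    Pool.Agent.W821.TB.isSol_of (fun t => (hx t).1) (fun t => (hx t).2)
  obtain ⟨Cb, hCb, hb⟩ := Pool.Agent.Q85.UB.bound m hm
  obtain ⟨C, hC, h⟩ := Pool.Agent.Q85.UB.unbounded_near m hm Cb hCb
  refine ⟨C, hC, ?_, ?_⟩
  · rintro x hx ⟨T, hT, h⟩
    exact Pool.Agent.Q85.UB.rel_periodic_bdd (hsol x hx) hT.ne' h
  · intro x hx hbd t a b c hab hca hcb r ρ w hr hρ hw hw6 hCr hE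
    have hV := hb x (hsol x hx) hbd t a b c hab hca hcb
    obtain ⟨z', hz', h1, h2, U, hU, hzU, h3⟩ := h (x t) (hx t).1 a b c hab hca hcb r ρ w hr hρ hw hw6 hCr
      (by rw [hρ]; exact hV) hE
    refine ⟨z', hz', h1, h2, U, hU, hzU, fun y₀ hy hyp => ?_⟩
    obtain ⟨γ, η, hη, h0, hγ, hd⟩ := h3 y₀ hy hyp
    exact ⟨γ, ⟨η, hη, hγ⟩, h0, hd⟩

end Pool.Agent.Results.MP_6e7c44_mp.UnboundedNearby
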